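import Mathlib
import Pool.Agent.Lib.helper33.CosSum

/-!
The adjacency matrix of the Hasse diagram of `L(m, n)` is the hopping matrix of `m` free fermions on
a path with `m + n` sites.  Slater determinants of sines are a spanning family of eigenvectors,
with eigenvalues the sums of `2 cos (π r / (m + n + 1))` over `m`-subsets of `[1, m + n]`.
Which sums vanish is decided modulo 2 by a Vandermonde (BCH) argument.
-/

open Finset Matrix
open Pool.Agent.Lib.helper33.CosSum

namespace Pool.Agent.Results.MP_34e3ac_co.Nonsingular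

/-- Partitions with at most `m` parts, each at most `n`, as weakly decreasing `m`-tuples with
entries in `0, …, n`, ordered componentwise. -/
abbrev L (m n : ℕ) : Type := {l : Fin m → Fin (n + 1) // Antitone l}

open Classical in
/-- The determinant of the real adjacency matrix of the Hasse diagram of `L m n`. -/
noncomputable def hasseDet (m n : ℕ) : ℝ :=
  ((SimpleGraph.hasse (L m n)).adjMatrix ℝ).det

variable {m n : ℕ}

/-- Particle positions. -/
def y (l : L m n) (i : Fin m) : ℕ := (l.1 i : ℕ) + (m - i)

theorem y_pos (l : L m n) (i : Fin m) : 1 ≤ y l i := by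
  have := i.2; unfold y; omega

theorem y_le (l : L m n) (i : Fin m) : y l i ≤ m + n := by
  have := (l.1 i).2; unfold y; omega

theorem y_anti (l : L m n) : StrictAnti (y l) := by
  intro i j hij
  have h1 : (l.1 j : ℕ) ≤ l.1 i := l.2 hij.le
  have h2 : (i : ℕ) < j := hij
  have := j.2
  unfold y; omega

theorem y_inj : Function.Injective (y : L m n → Fin m → ℕ) := by
  intro l l' h
  apply Subtype.ext; funext i
  have := congrFun h i
  unfold y at this
  exact Fin.ext (by omega)

theorem le_iff (l μ : L m n) : l ≤ μ ↔ ∀ i, y l i ≤ y μ i := by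
  constructor
  · intro h i
    have : (l.1 i : ℕ) ≤ μ.1 i := h i
    unfold y; omega
  · intro h i
    have := h i
    unfold y at this
    exact (show (l.1 i : ℕ) ≤ μ.1 i by omega)

/-- Raising one entry. -/
theorem exists_up (l : L m n) (i : Fin m) (h1 : (l.1 i : ℕ) < n)
    (h2 : ∀ j, j < i → (l.1 i : ℕ) < l.1 j) :
    ∃ μ : L m n, y μ = Function.update (y l) i (y l i + 1) := by
  refine ⟨⟨Function.update l.1 i ⟨l.1 i + 1, by omega⟩, ?_⟩, ?_⟩
  · intro a b hab
    have h3 : (l.1 b : ℕ) ≤ l.1 a := l.2 hab
    rw [Fin.le_def]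
    by_cases ha : a = i <;> by_cases hb : b = i
    · rw [ha, hb]
    · subst ha
      rw [Function.update_self, Function.update_of_ne hb]; simp only; omega
    · subst hb
      rw [Function.update_self, Function.update_of_ne ha]
      exact h2 a (lt_of_le_of_ne hab ha)
    · rw [Function.update_of_ne ha, Function.update_of_ne hb]; exact h3
  · funext j
    by_cases hj : j = i
    · subst hj; simp only [y, Function.update_self]; omega
    · simp only [y, Function.update_of_ne hj]

/-- Lowering one entry. -/
theorem exists_down (l : L m n) (i : Fin m) (h1 : 0 < (l.1 i : ℕ))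
    (h2 : ∀ j, i < j → (l.1 j : ℕ) < l.1 i) :
    ∃ μ : L m n, y μ = Function.update (y l) i (y l i - 1) := by
  refine ⟨⟨Function.update l.1 i ⟨l.1 i - 1, by have := (l.1 i).2; omega⟩, ?_⟩, ?_⟩
  · intro a b hab
    have h3 : (l.1 b : ℕ) ≤ l.1 a := l.2 hab
    rw [Fin.le_def]
    by_cases ha : a = i <;> by_cases hb : b = i
    · rw [ha, hb]
    · subst ha
      rw [Function.update_self, Function.update_of_ne hb]
      have := h2 b (lt_of_le_of_ne hab (Ne.symm hb))
      simp only; omega
    · subst hb
      rw [Function.update_self, Function.update_of_ne ha]; simp only; omega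
    · rw [Function.update_of_ne ha, Function.update_of_ne hb]; exact h3
  · funext j
    by_cases hj : j = i
    · subst hj; simp only [y, Function.update_self]; omega
    · simp only [y, Function.update_of_ne hj]

theorem covBy_iff (l μ : L m n) :
    l ⋖ μ ↔ ∃ i, y μ = Function.update (y l) i (y l i + 1) := by
  classical
  constructor
  · intro h
    have hle := (le_iff l μ).mp h.le
    have hne : (univ.filter (fun i => y l i < y μ i)).Nonempty := by
      by_contra hc
      apply h.ne
      apply y_inj; funext i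
      by_contra hi
      exact hc ⟨i, mem_filter.mpr ⟨mem_univ _, lt_of_le_of_ne (hle i) hi⟩⟩
    obtain ⟨i, hi, hmin⟩ := exists_min_image _ (fun i => i) hne
    have hi' : y l i < y μ i := (mem_filter.mp hi).2
    obtain ⟨ν, hν⟩ := exists_up l i (by have := (μ.1 i).2; unfold y at hi'; omega) (by
      intro j hj
      have h1 : ¬ y l j < y μ j := fun hc =>
        absurd (hmin j (mem_filter.mpr ⟨mem_univ _, hc⟩)) (not_le.mpr hj)
      have h2 : (μ.1 i : ℕ) ≤ μ.1 j := μ.2 hj.le
      unfold y at h1 hi'; omega)
    refine ⟨i, ?_⟩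
    have hlν : l < ν := by
      refine lt_of_le_of_ne ((le_iff _ _).mpr (fun j => ?_)) ?_
      · rw [hν]; by_cases hj : j = i
        · subst hj; simp
        · rw [Function.update_of_ne hj]
      · rintro rfl
        have := congrFun hν i
        simp at this
    have hνμ : ν ≤ μ := by
      refine (le_iff _ _).mpr (fun j => ?_)
      rw [hν]; by_cases hj : j = i
      · subst hj; rw [Function.update_self]; omega
      · rw [Function.update_of_ne hj]; exact hle j
    rw [← hν, ← (h.eq_or_eq hlν.le hνμ).resolve_left hlν.ne']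
  · rintro ⟨i, hi⟩
    refine ⟨lt_of_le_of_ne ((le_iff _ _).mpr (fun j => ?_)) ?_, ?_⟩
    · rw [hi]; by_cases hj : j = i
      · subst hj; simp
      · rw [Function.update_of_ne hj]
    · rintro rfl
      have := congrFun hi i
      simp at this
    · intro c h1 h2
      have a1 := (le_iff _ _).mp h1.le
      have a2 := (le_iff _ _).mp h2.le
      by_cases hc : y c i = y l i
      · apply h1.ne; apply y_inj; funext j
        by_cases hj : j = i
        · rw [hj, hc]
        · have := a2 j; rw [hi, Function.update_of_ne hj] at this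
          exact le_antisymm (a1 j) this
      · apply h2.ne; apply y_inj; funext j
        by_cases hj : j = i
        · subst hj
          have b1 := a1 j; have b2 := a2 j
          rw [hi, Function.update_self] at b2 ⊢; omega
        · have := a2 j; rw [hi, Function.update_of_ne hj] at this ⊢
          exact le_antisymm this (a1 j)

theorem covBy_iff' (l μ : L m n) :
    μ ⋖ l ↔ ∃ i, y μ = Function.update (y l) i (y l i - 1) := by
  rw [covBy_iff]
  refine exists_congr (fun i => ?_)
  constructor
  · intro h; funext j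
    by_cases hj : j = i
    · subst hj; rw [Function.update_self, h, Function.update_self]; omega
    · rw [Function.update_of_ne hj, h, Function.update_of_ne hj]
  · intro h; funext j
    by_cases hj : j = i
    · subst hj; rw [Function.update_self, h, Function.update_self]
      have := y_pos l j; omega
    · rw [Function.update_of_ne hj, h, Function.update_of_ne hj]

/-- Slater determinant. -/
noncomputable def D (ψ : Fin m → ℕ → ℝ) (z : Fin m → ℕ) : ℝ :=
  (Matrix.of fun j i => ψ j (z i)).det

theorem D_zero_col (ψ : Fin m → ℕ → ℝ) (z : Fin m → ℕ) (i : Fin m) (h : ∀ j, ψ j (z i) = 0) :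
    D ψ z = 0 := det_eq_zero_of_column_eq_zero i h

theorem D_eq_col (ψ : Fin m → ℕ → ℝ) (z : Fin m → ℕ) (i i' : Fin m) (hne : i ≠ i')
    (h : z i = z i') : D ψ z = 0 :=
  det_zero_of_column_eq hne (fun j => by simp only [of_apply, h])

theorem D_up (ψ : Fin m → ℕ → ℝ) (hψ : ∀ j, ψ j (m + n + 1) = 0) (l : L m n) (i : Fin m)
    (h : ¬ ∃ μ : L m n, y μ = Function.update (y l) i (y l i + 1)) :
    D ψ (Function.update (y l) i (y l i + 1)) = 0 := by
  by_cases hi : (i : ℕ) = 0
  · have h1 : ¬ (l.1 i : ℕ) < n := fun hc => h (exists_up l i hc (by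
      intro j hj; have : (j : ℕ) < i := hj; omega))
    apply D_zero_col _ _ i
    intro j
    have := (l.1 i).2
    have e : y l i + 1 = m + n + 1 := by unfold y; omega
    rw [Function.update_self, e, hψ]
  · let i' : Fin m := ⟨i - 1, by have := i.2; omega⟩
    have hlt : i' < i := by rw [Fin.lt_def]; simp only [i']; omega
    have h0 : (l.1 i : ℕ) ≤ l.1 i' := l.2 hlt.le
    have h1 : (l.1 i' : ℕ) = l.1 i := by
      by_contra hc
      apply h
      apply exists_up l i (by have := (l.1 i').2; omega)
      intro j hj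
      have hj' : j ≤ i' := by rw [Fin.le_def]; have : (j : ℕ) < i := hj; simp only [i']; omega
      have : (l.1 i' : ℕ) ≤ l.1 j := l.2 hj'
      omega
    apply D_eq_col _ _ i i' hlt.ne'
    rw [Function.update_self, Function.update_of_ne hlt.ne]
    have := i.2
    unfold y; simp only [i'] at h1 ⊢; omega

theorem D_down (ψ : Fin m → ℕ → ℝ) (hψ : ∀ j, ψ j 0 = 0) (l : L m n) (i : Fin m)
    (h : ¬ ∃ μ : L m n, y μ = Function.update (y l) i (y l i - 1)) :
    D ψ (Function.update (y l) i (y l i - 1)) = 0 := by
  by_cases hi : (i : ℕ) + 1 = m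
  · have h1 : ¬ 0 < (l.1 i : ℕ) := fun hc => h (exists_down l i hc (by
      intro j hj; have : (i : ℕ) < j := hj; have := j.2; omega))
    apply D_zero_col _ _ i
    intro j
    have e : y l i - 1 = 0 := by unfold y; omega
    rw [Function.update_self, e, hψ]
  · let i' : Fin m := ⟨i + 1, by have := i.2; omega⟩
    have hlt : i < i' := by rw [Fin.lt_def]; simp only [i']; omega
    have h0 : (l.1 i' : ℕ) ≤ l.1 i := l.2 hlt.le
    have h1 : (l.1 i' : ℕ) = l.1 i := by
      by_contra hc
      apply h
      apply exists_down l i (by omega)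
      intro j hj
      have hj' : i' ≤ j := by rw [Fin.le_def]; have : (i : ℕ) < j := hj; simp only [i']; omega
      have : (l.1 j : ℕ) ≤ l.1 i' := l.2 hj'
      omega
    apply D_eq_col _ _ i i' hlt.ne
    rw [Function.update_self, Function.update_of_ne hlt.ne']
    have := i.2
    unfold y; simp only [i'] at h1 ⊢; omega

open Classical in
theorem sum_moves (ψ : Fin m → ℕ → ℝ) (z : Fin m → Fin m → ℕ) (hz : Function.Injective z)
    (h : ∀ i, (¬ ∃ μ : L m n, y μ = z i) → D ψ (z i) = 0) :
    ∑ μ : L m n, (if ∃ i, y μ = z i then D ψ (y μ) else 0) = ∑ i, D ψ (z i) := by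
  have h1 : ∀ μ : L m n, (if ∃ i, y μ = z i then D ψ (y μ) else 0) =
      ∑ i, if y μ = z i then D ψ (y μ) else 0 := by
    intro μ
    by_cases hc : ∃ i, y μ = z i
    · obtain ⟨i, hi⟩ := hc
      rw [if_pos ⟨i, hi⟩, sum_eq_single i, if_pos hi]
      · intro j _ hj
        rw [if_neg]
        intro hj'
        exact hj (hz (hj'.symm.trans hi))
      · simp
    · rw [if_neg hc]
      symm
      exact sum_eq_zero (fun i _ => if_neg (fun hi => hc ⟨i, hi⟩))
  rw [sum_congr rfl (fun μ _ => h1 μ), sum_comm]
  refine sum_congr rfl (fun i _ => ?_)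
  by_cases hc : ∃ μ : L m n, y μ = z i
  · obtain ⟨μ, hμ⟩ := hc
    rw [sum_eq_single μ, if_pos hμ, hμ]
    · intro ν _ hν
      rw [if_neg]
      intro hν'
      exact hν (y_inj (hν'.trans hμ.symm))
    · simp
  · rw [h i hc]
    exact sum_eq_zero (fun μ _ => if_neg (fun hμ => hc ⟨μ, hμ⟩))

theorem D_update (ψ : Fin m → ℕ → ℝ) (z : Fin m → ℕ) (i : Fin m) (a : ℕ) :
    D ψ (Function.update z i a) =
      ∑ j, (Matrix.of fun j i => ψ j (z i)).adjugate i j * ψ j a := by
  have : (Matrix.of fun j i' => ψ j (Function.update z i a i')) =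
      (Matrix.of fun j i => ψ j (z i)).updateCol i (fun j => ψ j a) := by
    ext j i'
    by_cases h : i' = i
    · subst h; simp
    · simp [h]
  rw [D, this, ← cramer_apply, cramer_eq_adjugate_mulVec]
  rfl

open Classical in
theorem eigen (ψ : Fin m → ℕ → ℝ) (θ : Fin m → ℝ) (h0 : ∀ j, ψ j 0 = 0)
    (h1 : ∀ j, ψ j (m + n + 1) = 0)
    (h2 : ∀ j k, 1 ≤ k → ψ j (k + 1) + ψ j (k - 1) = θ j * ψ j k) :
    (SimpleGraph.hasse (L m n)).adjMatrix ℝ *ᵥ (fun μ => D ψ (y μ)) =
      fun l => (∑ j, θ j) * D ψ (y l) := by
  funext l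
  have e1 : ((SimpleGraph.hasse (L m n)).adjMatrix ℝ *ᵥ (fun μ => D ψ (y μ))) l =
      ∑ μ : L m n, (if ∃ i, y μ = Function.update (y l) i (y l i + 1) then D ψ (y μ) else 0) +
      ∑ μ : L m n, (if ∃ i, y μ = Function.update (y l) i (y l i - 1) then D ψ (y μ) else 0) := by
    rw [← sum_add_distrib]
    simp only [mulVec, dotProduct, SimpleGraph.adjMatrix_apply, SimpleGraph.hasse_adj]
    refine sum_congr rfl (fun μ _ => ?_)
    simp only [← covBy_iff, ← covBy_iff']
    by_cases a : l ⋖ μ <;> by_cases b : μ ⋖ l
    · exact absurd b.lt (lt_asymm a.lt)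
    · simp [a, b]
    · simp [a, b]
    · simp [a, b]
  rw [e1, sum_moves ψ (fun i => Function.update (y l) i (y l i + 1)) _ (D_up ψ h1 l),
    sum_moves ψ (fun i => Function.update (y l) i (y l i - 1)) _ (D_down ψ h0 l),
    ← sum_add_distrib]
  · simp only [D_update, ← sum_add_distrib, ← mul_add]
    rw [sum_comm, sum_mul]
    refine sum_congr rfl (fun j _ => ?_)
    have := congrFun (congrFun (mul_adjugate (Matrix.of fun j i => ψ j (y l i))) j) j
    rw [mul_apply] at this
    simp only [of_apply, Matrix.smul_apply, one_apply_eq, smul_eq_mul, mul_one] at this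
    rw [D, ← this, mul_sum]
    refine sum_congr rfl (fun i _ => ?_)
    rw [h2 j _ (y_pos l i)]; ring
  · intro i j hij
    by_contra hne
    have := congrFun hij i
    simp only [Function.update_self, Function.update_of_ne hne] at this
    have := y_pos l i; omega
  · intro i j hij
    by_contra hne
    have := congrFun hij i
    simp only [Function.update_self, Function.update_of_ne hne] at this
    omega

/-- The standing waves. -/
noncomputable def sn (M r k : ℕ) : ℝ := Real.sin (Real.pi * r / M * k)

theorem sn_zero (M r : ℕ) : sn M r 0 = 0 := by simp [sn]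

theorem sn_top (M r : ℕ) (hM : M ≠ 0) : sn M r M = 0 := by
  have : (M : ℝ) ≠ 0 := by exact_mod_cast hM
  have e : Real.pi * r / M * M = r * Real.pi := by field_simp
  rw [sn, e, Real.sin_nat_mul_pi]

theorem sn_rec (M r k : ℕ) (hk : 1 ≤ k) :
    sn M r (k + 1) + sn M r (k - 1) = (2 * cs M r) * sn M r k := by
  unfold sn cs
  rw [Nat.cast_sub hk]; push_cast
  rw [mul_add, mul_sub, mul_one, Real.sin_add, Real.sin_sub]; ring

theorem angle_mem (M r : ℕ) (h1 : 1 ≤ r) (h2 : r < M) :
    0 < Real.pi * r / M ∧ Real.pi * r / M < Real.pi := by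
  have a1 : (0 : ℝ) < r := by exact_mod_cast h1
  have a2 : (r : ℝ) < M := by exact_mod_cast h2
  have := Real.pi_pos
  refine ⟨by have : (0 : ℝ) < M := by linarith
             positivity, ?_⟩
  rw [div_lt_iff₀ (by linarith)]; nlinarith

theorem indep (M k : ℕ) (r : Fin k → ℕ) (hr : Function.Injective r)
    (hr1 : ∀ j, r j ∈ Ico 1 M) (c : Fin k → ℝ)
    (hc : ∀ t, 1 ≤ t → t ≤ k → ∑ j, c j * sn M (r j) t = 0) : c = 0 := by
  have key : ∀ d t, t + d ≤ k → ∑ j, c j * sn M (r j) t * (2 * cs M (r j)) ^ d = 0 := by
    intro d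
    induction d with
    | zero =>
      intro t ht
      rcases Nat.eq_zero_or_pos t with rfl | h
      · simp [sn_zero]
      · simpa using hc t h (by omega)
    | succ d ih =>
      intro t ht
      rcases Nat.eq_zero_or_pos t with rfl | h
      · simp [sn_zero]
      · have a := ih (t + 1) (by omega)
        have b := ih (t - 1) (by omega)
        rw [← add_zero (0 : ℝ)]
        nth_rewrite 1 [← a]
        rw [← b, ← sum_add_distrib]
        refine sum_congr rfl (fun j _ => ?_)
        have := sn_rec M (r j) t h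
        linear_combination (- c j * (2 * cs M (r j)) ^ d) * this
  have hinj : Function.Injective (fun j => 2 * cs M (r j)) := by
    intro i j hij
    have hi := mem_Ico.mp (hr1 i)
    have hj := mem_Ico.mp (hr1 j)
    have ai := angle_mem M _ hi.1 hi.2
    have aj := angle_mem M _ hj.1 hj.2
    have h1 : cs M (r i) = cs M (r j) := by simpa using hij
    have h2 := Real.injOn_cos ⟨ai.1.le, ai.2.le⟩ ⟨aj.1.le, aj.2.le⟩ h1
    have hM : (M : ℝ) ≠ 0 := by exact_mod_cast (by omega : M ≠ 0)
    have hp := Real.pi_pos.ne'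
    field_simp at h2
    exact hr (by exact_mod_cast h2)
  have hz := eq_zero_of_forall_pow_sum_mul_pow_eq_zero (v := fun j => c j * sn M (r j) 1) hinj
    (fun i => key i 1 (by have := i.2; omega))
  funext j
  have h1 := congrFun hz j
  have hj := mem_Ico.mp (hr1 j)
  have aj := angle_mem M _ hj.1 hj.2
  have h2 : 0 < sn M (r j) 1 := by
    simp only [sn, Nat.cast_one, mul_one]
    exact Real.sin_pos_of_pos_of_lt_pi aj.1 aj.2
  simp only [Pi.zero_apply] at h1 ⊢
  exact (mul_eq_zero.mp h1).resolve_right h2.ne'

theorem singular (h : Van (m + n + 1) m) : hasseDet m n = 0 := by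
  classical
  obtain ⟨S, hS, hSc, h0⟩ := h
  let e := S.equivFinOfCardEq hSc
  let r : Fin m → ℕ := fun j => (e.symm j : ℕ)
  have hr : Function.Injective r := fun i j hij => e.symm.injective (Subtype.ext hij)
  have hr1 : ∀ j, r j ∈ Ico 1 (m + n + 1) := fun j => hS (e.symm j).2
  have hsum : ∑ j, 2 * cs (m + n + 1) (r j) = 0 := by
    rw [← mul_sum, e.symm.sum_comp (fun x : S => cs (m + n + 1) x), sum_coe_sort S, h0, mul_zero]
  have he := eigen (n := n) (fun j => sn (m + n + 1) (r j)) (fun j => 2 * cs (m + n + 1) (r j))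
    (fun j => sn_zero _ _) (fun j => sn_top _ _ (by omega)) (fun j k hk => sn_rec _ _ _ hk)
  rw [hsum] at he
  unfold hasseDet
  rw [← exists_mulVec_eq_zero_iff]
  refine ⟨_, ?_, by rw [he]; funext l; simp⟩
  intro hz
  have h1 := congrFun hz ⟨fun _ => 0, fun _ _ _ => le_rfl⟩
  simp only [D, Pi.zero_apply] at h1
  obtain ⟨c, hc, hc0⟩ := exists_vecMul_eq_zero_iff.mpr h1
  apply hc
  apply indep (m + n + 1) m r hr hr1
  intro t h1 h2
  have := congrFun hc0 ⟨m - t, by omega⟩
  simp only [vecMul, dotProduct, of_apply, y, Pi.zero_apply] at this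
  have e : ((0 : Fin (n + 1)) : ℕ) + (m - (m - t)) = t := by simp; omega
  rw [e] at this
  exact this

theorem delta (N : ℕ) : ∃ C : Fin N → ℕ → ℝ, ∀ s t, 1 ≤ s → s ≤ N → 1 ≤ t → t ≤ N →
    ∑ r : Fin N, C r s * sn (N + 1) (r + 1) t = if t = s then 1 else 0 := by
  let B : Matrix (Fin N) (Fin N) ℝ := Matrix.of fun r t => sn (N + 1) (r + 1) (t + 1)
  have hB : B.det ≠ 0 := by
    intro h
    obtain ⟨c, hc, hc0⟩ := exists_vecMul_eq_zero_iff.mpr h
    apply hc
    apply indep (N + 1) N (fun r => r + 1)
    · intro a b hab; exact Fin.ext (by simpa using hab)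
    · intro j; have := j.2; rw [mem_Ico]; omega
    · intro t h1 h2
      have := congrFun hc0 ⟨t - 1, by omega⟩
      simp only [vecMul, dotProduct, B, of_apply, Pi.zero_apply] at this
      rw [Nat.sub_add_cancel h1] at this
      exact this
  refine ⟨fun r s => if h : s - 1 < N then B⁻¹ ⟨s - 1, h⟩ r else 0, ?_⟩
  intro s t s1 s2 t1 t2
  have hs : s - 1 < N := by omega
  have := congrFun (congrFun (nonsing_inv_mul B (isUnit_iff_ne_zero.mpr hB)) ⟨s - 1, hs⟩)
    ⟨t - 1, by omega⟩
  rw [mul_apply, one_apply] at this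
  simp only [dif_pos hs]
  simp only [B, of_apply, Nat.sub_add_cancel t1, Fin.mk.injEq] at this
  rw [this]
  by_cases h : t = s
  · rw [if_pos h, if_pos (by omega)]
  · rw [if_neg h, if_neg (by omega)]

theorem D_delta (l μ : L m n) :
    (Matrix.of fun j i => if y l i = y μ j then (1 : ℝ) else 0).det = if l = μ then 1 else 0 := by
  by_cases h : l = μ
  · subst h
    have e : (Matrix.of fun j i => if y l i = y l j then (1 : ℝ) else 0) = 1 := by
      ext j i
      simp only [of_apply, one_apply, (y_anti l).injective.eq_iff, eq_comm]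
    rw [if_pos rfl, e, det_one]
  · rw [if_neg h]
    by_contra hne
    rw [det_apply] at hne
    obtain ⟨σ, _, hσ⟩ := exists_ne_zero_of_sum_ne_zero hne
    have h1 : ∏ i, (Matrix.of fun j i => if y l i = y μ j then (1 : ℝ) else 0) (σ i) i ≠ 0 := by
      intro hc; rw [hc] at hσ; simp at hσ
    have h2 : ∀ i, y l i = y μ (σ i) := by
      intro i
      have := prod_ne_zero_iff.mp h1 i (mem_univ _)
      by_contra hc
      simp [hc] at this
    apply h; apply y_inj
    rw [← (y_anti l).range_inj (y_anti μ)]
    have : y l = y μ ∘ σ := funext h2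
    rw [this, σ.surjective.range_comp]

theorem nonsingular (h : ¬ Van (m + n + 1) m) : hasseDet m n ≠ 0 := by
  classical
  unfold hasseDet
  intro hdet
  obtain ⟨w, hw, hw0⟩ := exists_vecMul_eq_zero_iff.mpr hdet
  apply hw
  have hr : ∀ r : Fin m → Fin (m + n),
      ∑ l, w l * D (fun j => sn (m + n + 1) (r j + 1)) (y l) = 0 := by
    intro r
    by_cases hinj : Function.Injective r
    · have he := eigen (n := n) (fun j => sn (m + n + 1) (r j + 1))
        (fun j => 2 * cs (m + n + 1) (r j + 1))
        (fun j => sn_zero _ _) (fun j => sn_top _ _ (by omega)) (fun j k hk => sn_rec _ _ _ hk)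
      have h1 := dotProduct_mulVec w ((SimpleGraph.hasse (L m n)).adjMatrix ℝ)
        (fun μ => D (fun j => sn (m + n + 1) (r j + 1)) (y μ))
      rw [he, hw0, zero_dotProduct] at h1
      have hne : ∑ j, 2 * cs (m + n + 1) (r j + 1) ≠ 0 := by
        intro hc
        apply h
        have hinj' : Function.Injective (fun j => (r j : ℕ) + 1) := by
          intro a b hab; exact hinj (Fin.ext (by simpa using hab))
        refine ⟨univ.image (fun j => (r j : ℕ) + 1), ?_, ?_, ?_⟩
        · intro x hx
          obtain ⟨j, _, rfl⟩ := mem_image.mp hx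
          have := (r j).2; rw [mem_Ico]; omega
        · rw [card_image_of_injective _ hinj', card_univ, Fintype.card_fin]
        · rw [sum_image (fun a _ b _ hab => hinj' hab)]
          rw [← mul_sum] at hc; linarith
      apply mul_left_cancel₀ hne
      rw [mul_zero, ← h1, mul_sum]
      simp only [dotProduct]
      exact sum_congr rfl (fun l _ => by ring)
    · rw [Function.Injective] at hinj
      push Not at hinj
      obtain ⟨a, b, hab, hne⟩ := hinj
      refine sum_eq_zero (fun l _ => ?_)
      rw [D, det_zero_of_row_eq hne (by funext i; simp only [of_apply, hab]), mul_zero]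
  obtain ⟨C, hC⟩ := delta (m + n)
  funext μ
  have h1 : ∀ l : L m n, (if l = μ then (1 : ℝ) else 0) =
      ∑ r : Fin m → Fin (m + n), (∏ j, C (r j) (y μ j)) *
        D (fun j => sn (m + n + 1) (r j + 1)) (y l) := by
    intro l
    rw [← D_delta]
    have e : (Matrix.of fun j i => if y l i = y μ j then (1 : ℝ) else 0) =
        fun j => ∑ s : Fin (m + n), C s (y μ j) • (fun i => sn (m + n + 1) (s + 1) (y l i)) := by
      ext j i
      rw [of_apply, ← hC _ _ (y_pos μ j) (y_le μ j) (y_pos l i) (y_le l i), Finset.sum_apply]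
      rfl
    rw [e]
    have := (detRowAlternating (n := Fin m) (R := ℝ)).toMultilinearMap.map_sum
      (fun j (s : Fin (m + n)) => C s (y μ j) • (fun i => sn (m + n + 1) (s + 1) (y l i)))
    refine this.trans (sum_congr rfl (fun r _ => ?_))
    rw [MultilinearMap.map_smul_univ]
    rfl
  have h2 : w μ = ∑ l, w l * (if l = μ then (1 : ℝ) else 0) := by simp
  rw [h2, sum_congr rfl (fun l _ => by rw [h1 l, mul_sum]), sum_comm]
  refine sum_eq_zero (fun r _ => ?_)
  have := hr r
  calc _ = (∏ j, C (r j) (y μ j)) * ∑ l, w l * D (fun j => sn (m + n + 1) (r j + 1)) (y l) := by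
        rw [mul_sum]; exact sum_congr rfl (fun l _ => by ring)
    _ = 0 := by rw [this, mul_zero]

/-- The adjacency matrix of the Hasse diagram of `L(m, n)` is nonsingular exactly when `m` and `n`
are odd and the smaller one is below the least prime factor of `m + n + 1`. -/
theorem result (m n : ℕ) (_hm : 1 ≤ m) (_hn : 1 ≤ n) :
    hasseDet m n ≠ 0 ↔ Odd m ∧ Odd n ∧ min m n < (m + n + 1).minFac := by
  rw [← not_van_iff]
  exact ⟨fun h hv => h (singular hv), nonsingular⟩

end Pool.Agent.Results.MP_34e3ac_co.Nonsingular
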